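import Pool.Agent.Zk5.HR.Qs

set_option autoImplicit false

/-! # The sum of the distances up to a height, in terms of the measure of the bad heights: three logarithms -/

namespace Pool.Agent.Zk6.HL

open Complex Filter Topology MeasureTheory Set
open Pool.Agent.Zk4 Pool.Agent.Zk5.HR
open H370 (Zf mult good_zeta)

/-- the estimate in a dyadic block -/
def Block (B : Set ℝ) : Prop := ∃ (c C T0 : ℝ) (n0 : ℕ), 0 < c ∧ c ≤ 1 ∧ 1 ≤ C ∧ 2 ≤ T0 ∧ 1 ≤ n0 ∧
  ∀ (T V : ℝ) (n : ℕ), T0 ≤ T → 0 ≤ V → n0 ≤ n → (n : ℝ) ≤ Real.log T / 400 →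
    volume (B ∩ Icc (T / 2) (3 * T)) ≤ ENNReal.ofReal V →
    DD T (2 * T) ≤ C * T * Real.exp (-(c * n)) + C * (n : ℝ) ^ 3 * V

theorem sumq2 {B : Set ℝ} (hB : Block B) : ∃ (c C T0 : ℝ) (n0 : ℕ), 0 < c ∧ c ≤ 1 ∧ 1 ≤ C ∧ 2 ≤ T0 ∧ 1 ≤ n0 ∧
    ∀ (T : ℝ) (n : ℕ), T0 ≤ T → n0 ≤ n → (n : ℝ) ≤ Real.log T / 800 →
    DD 1 T ≤ C * T * Real.exp (-(c * n)) + C * (n : ℝ) ^ 3 * vol B (2 * T) := by
  obtain ⟨c, C, T0, n0, hc, hc1, hC, hT0, hn0, h⟩ := hB
  obtain ⟨C1, T1, hC1, hT1, hcr⟩ := crude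
  -- the base
  have hlim : ∀ᶠ T : ℝ in atTop, C1 * (2 * Real.sqrt T) * Real.log (2 * Real.sqrt T) ≤ T ^ (3 / 4 : ℝ) := by
    have h1 := (isLittleO_log_rpow_atTop (show (0 : ℝ) < 1 / 4 by norm_num)).def (show (0 : ℝ) < 1 / (4 * C1) by positivity)
    filter_upwards [h1, eventually_ge_atTop (16 : ℝ)] with T hT hT16
    have hT0' : 0 < T := by linarith
    have hs : 0 < Real.sqrt T := Real.sqrt_pos.2 hT0'
    have hlog : 0 < Real.log T := Real.log_pos (by linarith)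
    rw [Real.norm_eq_abs, abs_of_pos hlog, Real.norm_eq_abs, abs_of_pos (by positivity)] at hT
    have h5 : Real.log (2 * Real.sqrt T) ≤ Real.log T := by
      apply Real.log_le_log (by positivity)
      have h7 : 4 ≤ Real.sqrt T := by
        apply Real.le_sqrt_of_sq_le
        linarith
      nlinarith [Real.mul_self_sqrt (show (0 : ℝ) ≤ T by linarith)]
    calc C1 * (2 * Real.sqrt T) * Real.log (2 * Real.sqrt T) ≤ C1 * (2 * Real.sqrt T) * (1 / (4 * C1) * T ^ (1 / 4 : ℝ)) := by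
          gcongr
          exact h5.trans hT
      _ = 1 / 2 * (Real.sqrt T * T ^ (1 / 4 : ℝ)) := by field_simp; ring
      _ = 1 / 2 * T ^ (3 / 4 : ℝ) := by
          rw [Real.sqrt_eq_rpow, ← Real.rpow_add hT0']
          norm_num
      _ ≤ T ^ (3 / 4 : ℝ) := by
          have : 0 ≤ T ^ (3 / 4 : ℝ) := by positivity
          linarith
  obtain ⟨T2, hT2⟩ := eventually_atTop.1 (hlim.and (eventually_ge_atTop (16 : ℝ)))
  refine ⟨c, 3 * C + 1, max T2 (max (T0 ^ 2) (T1 ^ 2)), n0, hc, hc1, by linarith, ?_, hn0, ?_⟩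
  · have : 2 ≤ T0 ^ 2 := by nlinarith
    exact this.trans ((le_max_left _ _).trans (le_max_right _ _))
  intro T n hT hn hnL
  have b2 : T2 ≤ T := (le_max_left _ _).trans hT
  have b0 : T0 ^ 2 ≤ T := ((le_max_left _ _).trans (le_max_right _ _)).trans hT
  have b1 : T1 ^ 2 ≤ T := ((le_max_right _ _).trans (le_max_right _ _)).trans hT
  obtain ⟨c1, c2⟩ := hT2 T b2
  have hTp : 0 < T := by linarith
  obtain ⟨R, hR⟩ : ∃ R : ℝ, R = Real.sqrt T := ⟨_, rfl⟩
  have hRT : R * R = T := by rw [hR]; exact Real.mul_self_sqrt (by linarith)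
  have hR0 : T0 ≤ R := by rw [hR]; exact Real.le_sqrt_of_sq_le b0
  have hR1 : T1 ≤ R := by rw [hR]; exact Real.le_sqrt_of_sq_le b1
  have hR4 : 4 ≤ R := by rw [hR]; apply Real.le_sqrt_of_sq_le; linarith
  have hlogR : Real.log T = 2 * Real.log R := by
    rw [← hRT, Real.log_mul (by linarith) (by linarith)]
    ring
  have hn0' : (0 : ℝ) ≤ n := Nat.cast_nonneg _
  rw [← hR] at c1
  obtain ⟨K, hK⟩ : ∃ K : ℝ, K = C * (n : ℝ) ^ 3 := ⟨_, rfl⟩
  have hK0 : 0 ≤ K := by rw [hK]; positivity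
  obtain ⟨w, hw⟩ : ∃ w : ℝ → ℝ, w = fun X => vol B (3 * X / 2) + vol B (3 * X / 4) + vol B (3 * X / 8) := ⟨_, rfl⟩
  have hwn : ∀ X, 0 ≤ w X := by
    intro X
    rw [hw]
    have h1 := vol_nonneg B (3 * X / 2)
    have h2 := vol_nonneg B (3 * X / 4)
    have h3 := vol_nonneg B (3 * X / 8)
    simp only
    linarith
  have hbase : DD 1 (2 * R) ≤ T * Real.exp (-(c * n)) := by
    have h3 : DD 1 (2 * R) ≤ C1 * (2 * R) * Real.log (2 * R) := by
      refine le_trans ?_ (hcr (2 * R) (by linarith))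
      unfold DD
      refine Finset.sum_le_sum fun s hs => ?_
      rw [H370.mem_Zf good_zeta le_rfl] at hs
      have h4 : max (s.re - 1 / 2) 0 ≤ 1 := max_le (by linarith [hs.2.1]) (by norm_num)
      have h5 : (0 : ℝ) ≤ mult riemannZeta s := Nat.cast_nonneg _
      nlinarith
    refine (h3.trans c1).trans ?_
    have h6 : T ^ (3 / 4 : ℝ) = T * T ^ (-(1 / 4) : ℝ) := by
      rw [← Real.rpow_one_add' hTp.le (by norm_num)]
      norm_num
    rw [h6, Real.rpow_def_of_pos hTp]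
    apply mul_le_mul_of_nonneg_left _ hTp.le
    apply Real.exp_le_exp.2
    have h7 : c * n ≤ 1 * n := mul_le_mul_of_nonneg_right hc1 hn0'
    have h8 : 0 < Real.log T := Real.log_pos (by linarith)
    linarith
  have h3 := dyadic3 (f := fun X => DD 1 X - K * w X) (κ := C * Real.exp (-(c * n))) (T0 := R) (T := T)
    (C := T * Real.exp (-(c * n))) (by positivity) (by linarith)
    (fun X h1 h2 _ => by
      have h4 := DD_add (show (1 : ℝ) ≤ 1 from le_rfl) (show 1 ≤ X by linarith) h2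
      have h5 := DD_nonneg X (2 * R)
      have h6 : 0 ≤ K * w X := mul_nonneg hK0 (hwn X)
      linarith)
    (fun X h1 h2 => by
      have hX0 : 0 < X := by linarith
      have h4 := DD_add (show (1 : ℝ) ≤ 1 from le_rfl) (show 1 ≤ X / 2 by linarith) (show X / 2 ≤ X by linarith)
      have hlog : (n : ℝ) ≤ Real.log (X / 2) / 400 := by
        have : Real.log R ≤ Real.log (X / 2) := Real.log_le_log (by linarith) (by linarith)
        linarith
      have h5 := vol_sub B (X := X / 2 / 2) (Y := 3 * (X / 2)) (by positivity) (by linarith)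
      have hV0 : 0 ≤ vol B (3 * (X / 2)) - vol B (X / 2 / 2) := by
        have := vol_mono B (show X / 2 / 2 ≤ 3 * (X / 2) by linarith)
        linarith
      have h6 := h (X / 2) _ n (by linarith) hV0 hn hlog h5
      have e : 2 * (X / 2) = X := by ring
      rw [e, ← hK] at h6
      have h7 : vol B (3 * (X / 2)) - vol B (X / 2 / 2) ≤ w X - w (X / 2) := by
        rw [hw]
        simp only
        have e1 : 3 * (X / 2) / 2 = 3 * X / 4 := by ring
        have e2 : 3 * (X / 2) / 4 = 3 * X / 8 := by ring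
        have e3 : 3 * (X / 2) = 3 * X / 2 := by ring
        rw [e1, e2, e3]
        have h8 := vol_mono B (show 3 * (X / 2) / 8 ≤ X / 2 / 2 by linarith)
        rw [e3] at h8
        linarith
      have h8 := mul_le_mul_of_nonneg_left h7 hK0
      linarith) T (by nlinarith) le_rfl
  have h4 : w T ≤ 3 * vol B (2 * T) := by
    rw [hw]
    have h5 := vol_mono B (show 3 * T / 2 ≤ 2 * T by linarith)
    have h6 := vol_mono B (show 3 * T / 4 ≤ 2 * T by linarith)
    have h7 := vol_mono B (show 3 * T / 8 ≤ 2 * T by linarith)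
    simp only
    linarith
  have h5 := mul_le_mul_of_nonneg_left h4 hK0
  have h6 : DD 1 T ≤ T * Real.exp (-(c * n)) + C * Real.exp (-(c * n)) * T + K * (3 * vol B (2 * T)) := by
    linarith
  refine h6.trans ?_
  have hv := vol_nonneg B (2 * T)
  have h7 : K * (3 * vol B (2 * T)) ≤ (3 * C + 1) * (n : ℝ) ^ 3 * vol B (2 * T) := by
    rw [hK]
    calc C * (n : ℝ) ^ 3 * (3 * vol B (2 * T)) = (3 * C) * (n : ℝ) ^ 3 * vol B (2 * T) := by ring
      _ ≤ (3 * C + 1) * (n : ℝ) ^ 3 * vol B (2 * T) := by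
          gcongr
          linarith
  have h8 : T * Real.exp (-(c * n)) + C * Real.exp (-(c * n)) * T ≤ (3 * C + 1) * T * Real.exp (-(c * n)) := by
    have : 0 ≤ C * T * Real.exp (-(c * n)) := by positivity
    linarith
  linarith


theorem near_linear {B : Set ℝ} (h : Block B)
    (hd : ∃ C : ℝ, 0 < C ∧ ∀ T : ℝ, 2 ≤ T → DD 1 T ≤ C + C * Real.log T ^ 3 * vol B (T + 1)) :
    ∃ C : ℝ, 0 < C ∧ ∀ T : ℝ, 2 ≤ T →
      DD 1 T ≤ C + C * vol B (2 * T) * Real.log (4 * T / vol B (2 * T)) ^ 3 := by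
  obtain ⟨c, C, T0, n0, hc, hc1, hC, hT0, hn0, hs⟩ := sumq2 h
  obtain ⟨C1, hC1, hd⟩ := hd
  obtain ⟨k, hk⟩ : ∃ k : ℝ, k = 1 / c + 2 * (1 + n0) := ⟨_, rfl⟩
  have hn00 : (0 : ℝ) ≤ n0 := Nat.cast_nonneg _
  have hk1 : 1 ≤ k := by
    rw [hk]
    have : 0 < 1 / c := by positivity
    linarith
  have hlT0 : 0 ≤ Real.log T0 := Real.log_nonneg (by linarith)
  obtain ⟨k2, hk2⟩ : ∃ k2 : ℝ, k2 = 800 * k + 2 * Real.log T0 := ⟨_, rfl⟩
  have hk20 : 0 ≤ k2 := by rw [hk2]; linarith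
  have hlog2 := Real.log_two_gt_d9
  refine ⟨C1 + C1 * k2 ^ 3 + 2 * C + C * k ^ 3, by positivity, fun T hT => ?_⟩
  have hT0' : 0 < T := by linarith
  obtain ⟨V, hV⟩ : ∃ V : ℝ, V = vol B (2 * T) := ⟨_, rfl⟩
  have hV0 : 0 ≤ V := by rw [hV]; exact vol_nonneg B _
  have hV2 : V ≤ 2 * T := by rw [hV]; exact vol_le B (by linarith)
  have hV1 : vol B (T + 1) ≤ V := by rw [hV]; exact vol_mono B (by linarith)
  have hdT := hd T hT
  have hlT : 0 ≤ Real.log T := Real.log_nonneg (by linarith)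
  have hdT' : DD 1 T ≤ C1 + C1 * Real.log T ^ 3 * V :=
    hdT.trans (by
      have : C1 * Real.log T ^ 3 * vol B (T + 1) ≤ C1 * Real.log T ^ 3 * V :=
        mul_le_mul_of_nonneg_left hV1 (by positivity)
      linarith)
  rw [← hV]
  rcases eq_or_lt_of_le hV0 with h0 | h0
  · rw [← h0] at hdT' ⊢
    have : 0 ≤ C1 * k2 ^ 3 + 2 * C + C * k ^ 3 := by positivity
    linarith
  obtain ⟨l, hl⟩ : ∃ l : ℝ, l = Real.log (4 * T / V) := ⟨_, rfl⟩
  rw [← hl]
  have hl2 : 0.69 ≤ l := by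
    rw [hl]
    have h1 : Real.log 2 ≤ Real.log (4 * T / V) := by
      apply Real.log_le_log (by norm_num)
      rw [le_div_iff₀ h0]
      linarith
    linarith
  have hl0 : 0 < l := by linarith
  have hl3 : 1 / 4 ≤ l ^ 3 := by
    have h1 : (0.69 : ℝ) ^ 3 ≤ l ^ 3 := pow_le_pow_left₀ (by norm_num) hl2 3
    norm_num at h1
    linarith
  by_cases hcase : T0 ≤ T ∧ k * l ≤ Real.log T / 800
  · obtain ⟨a1, a2⟩ := hcase
    obtain ⟨n, hn⟩ : ∃ n : ℕ, n = ⌈l / c⌉₊ + n0 := ⟨_, rfl⟩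
    have hn1 : l / c ≤ n := by
      rw [hn]
      push_cast
      have := Nat.le_ceil (l / c)
      linarith
    have hn2 : (n : ℝ) ≤ k * l := by
      rw [hn]
      push_cast
      have h1 := Nat.ceil_lt_add_one (show 0 ≤ l / c by positivity)
      have h2 : (1 : ℝ) + n0 ≤ 2 * (1 + n0) * l := by nlinarith
      rw [hk]
      have h3 : (1 / c + 2 * (1 + (n0 : ℝ))) * l = l / c + 2 * (1 + n0) * l := by ring
      rw [h3]
      linarith
    have h1 := hs T n a1 (by rw [hn]; omega) (hn2.trans a2)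
    rw [← hV] at h1
    have h2 : Real.exp (-(c * n)) ≤ V / (4 * T) := by
      have h3 : Real.exp (-(c * n)) ≤ Real.exp (-l) := by
        apply Real.exp_le_exp.2
        have : l ≤ c * n := by
          rw [div_le_iff₀ hc] at hn1
          linarith
        linarith
      have h4 : Real.exp (-l) = V / (4 * T) := by
        rw [Real.exp_neg, hl, Real.exp_log (by positivity), inv_div]
      rwa [h4] at h3
    have h3 : C * T * Real.exp (-(c * n)) ≤ C * V * l ^ 3 := by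
      calc C * T * Real.exp (-(c * n)) ≤ C * T * (V / (4 * T)) := by gcongr
        _ = C * V * (1 / 4) := by field_simp
        _ ≤ C * V * l ^ 3 := by gcongr
    have h4 : C * (n : ℝ) ^ 3 * V ≤ C * k ^ 3 * V * l ^ 3 := by
      calc C * (n : ℝ) ^ 3 * V ≤ C * (k * l) ^ 3 * V := by gcongr
        _ = _ := by ring
    have h5 : 0 ≤ (C1 + C1 * k2 ^ 3 + C) * V * l ^ 3 := by positivity
    have h6 : (C1 + C1 * k2 ^ 3 + 2 * C + C * k ^ 3) * V * l ^ 3 =
        (C1 + C1 * k2 ^ 3 + C) * V * l ^ 3 + C * V * l ^ 3 + C * k ^ 3 * V * l ^ 3 := by ring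
    have h7 : 0 ≤ C1 + C1 * k2 ^ 3 + 2 * C + C * k ^ 3 := by positivity
    linarith
  · have h1 : Real.log T ≤ k2 * l := by
      rw [hk2]
      rcases lt_or_ge T T0 with h2 | h2
      · have h3 : Real.log T ≤ Real.log T0 := Real.log_le_log hT0' h2.le
        have h4 : Real.log T0 ≤ 2 * Real.log T0 * l := by nlinarith
        have h5 : 0 ≤ 800 * k * l := by positivity
        nlinarith
      · have h3 : ¬ k * l ≤ Real.log T / 800 := fun h4 => hcase ⟨h2, h4⟩
        push Not at h3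
        have h5 : 0 ≤ 2 * Real.log T0 * l := by positivity
        nlinarith
    have h2 : Real.log T ^ 3 ≤ k2 ^ 3 * l ^ 3 := by
      rw [← mul_pow]
      exact pow_le_pow_left₀ hlT h1 3
    have h3 : C1 * Real.log T ^ 3 * V ≤ C1 * k2 ^ 3 * V * l ^ 3 := by
      calc C1 * Real.log T ^ 3 * V ≤ C1 * (k2 ^ 3 * l ^ 3) * V := by gcongr
        _ = _ := by ring
    have h5 : 0 ≤ (C1 + 2 * C + C * k ^ 3) * V * l ^ 3 := by positivity
    have h6 : (C1 + C1 * k2 ^ 3 + 2 * C + C * k ^ 3) * V * l ^ 3 =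
        (C1 + 2 * C + C * k ^ 3) * V * l ^ 3 + C1 * k2 ^ 3 * V * l ^ 3 := by ring
    have h7 : 0 ≤ C1 * k2 ^ 3 + 2 * C + C * k ^ 3 := by positivity
    linarith

end Pool.Agent.Zk6.HL
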